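import Mathlib

namespace Pool.Agent.H.MP_e3b71d_lc
open Finset

variable {m : ℕ}

def tail (h : Fin (m + 1) → ℝ) (p : ℕ) : ℝ := ∑ x : Fin (m + 1), if p ≤ (x : ℕ) then h x else 0

theorem tail_top (h : Fin (m + 1) → ℝ) : tail h (m + 1) = 0 :=
  sum_eq_zero fun x _ => if_neg (by have := x.2; omega)

theorem tail_lt {f : Fin (m + 1) → ℝ} (hf : ∀ x, 0 < f x) {p q : ℕ} (x : Fin (m + 1)) (h1 : p ≤ x) (h2 : (x : ℕ) < q) :
    tail f q < tail f p := by
  refine sum_lt_sum (fun y _ => ?_) ⟨x, mem_univ _, by rw [if_pos h1, if_neg (by omega)]; exact hf x⟩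
  split_ifs with a b
  exacts [le_rfl, by omega, (hf y).le, le_rfl]

theorem iron {f : Fin (m + 1) → ℝ} (hf : ∀ x, 0 < f x) (R : ℕ → ℝ) (hR : R (m + 1) = 0) :
    ∃ ψ : Fin (m + 1) → ℝ, Monotone ψ ∧ ∀ t : Fin (m + 1), R t ≤ tail (fun x => f x * ψ x) t ∧
      ((∀ x < t, ψ x < ψ t) → tail (fun x => f x * ψ x) t ≤ R t) := by
  let g : ℝ → ℕ → ℝ := fun c p => R p - c * tail f p
  have ne : ∀ x : Fin (m + 1), (Ioc (x : ℕ) (m + 1)).Nonempty := fun x => ⟨m + 1, by simp [x.2]⟩
  let ψ : Fin (m + 1) → ℝ := fun x => (range (x + 1)).sup' (by simp) fun p =>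
    (Ioc (x : ℕ) (m + 1)).inf' (ne x) fun q => (R p - R q) / (tail f p - tail f q)
  have lt : ∀ c x, c < ψ x ↔ ∃ p ≤ (x : ℕ), ∀ q, (x : ℕ) < q → q ≤ m + 1 → g c q < g c p := fun c x => by
    simp only [ψ, lt_sup'_iff, lt_inf'_iff, mem_range, mem_Ioc, Nat.lt_succ_iff, and_imp]
    refine exists_congr fun p => and_congr_right fun hp => forall₂_congr fun q hq => imp_congr_right fun _ => ?_
    rw [lt_div_iff₀ (sub_pos.2 (tail_lt hf x hp hq))]
    constructor <;> intro h <;> simp only [g] at * <;> linarith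
  have le : ∀ c x, c ≤ ψ x ↔ ∃ p ≤ (x : ℕ), ∀ q, (x : ℕ) < q → q ≤ m + 1 → g c q ≤ g c p := fun c x => by
    simp only [ψ, le_sup'_iff, le_inf'_iff, mem_range, mem_Ioc, Nat.lt_succ_iff, and_imp]
    refine exists_congr fun p => and_congr_right fun hp => forall₂_congr fun q hq => imp_congr_right fun _ => ?_
    rw [le_div_iff₀ (sub_pos.2 (tail_lt hf x hp hq))]
    constructor <;> intro h <;> simp only [g] at * <;> linarith
  have mono : Monotone ψ := fun x y h => by
    obtain ⟨p, h1, h2⟩ := (le _ x).1 le_rfl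
    exact (le _ y).2 ⟨p, h1.trans h, fun q a => h2 q (lt_of_le_of_lt h a)⟩
  refine ⟨ψ, mono, fun t => ?_⟩
  induction t using WellFoundedGT.induction with
  | ind t ih =>
  set c := ψ t with hc
  obtain ⟨q, q1, q2, q3⟩ : ∃ q ≤ m + 1, (∀ p ≤ m + 1, g c p ≤ g c q) ∧ ∀ p, q < p → p ≤ m + 1 → g c p < g c q := by
    obtain ⟨q, q1, q2⟩ := exists_max_image (range (m + 2)) (fun p => toLex (g c p, p)) (by simp)
    refine ⟨q, by simpa [Nat.lt_succ_iff] using q1, fun p hp => ?_, fun p a hp => ?_⟩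
    · rcases Prod.Lex.toLex_le_toLex.1 (q2 p (by simpa [Nat.lt_succ_iff] using hp)) with h | h
      exacts [h.le, h.1.le]
    · rcases Prod.Lex.toLex_le_toLex.1 (q2 p (by simpa [Nat.lt_succ_iff] using hp)) with h | h
      exacts [h, absurd h.2 (not_le.2 a)]
  have lo : ∀ x : Fin (m + 1), (x : ℕ) < q → ψ x ≤ c := fun x hx => not_lt.1 fun h => by
    obtain ⟨p, h1, h2⟩ := (lt _ _).1 h
    exact absurd (h2 q hx q1) (not_lt.2 (q2 p (by have := x.2; omega)))
  have hi : ∀ x : Fin (m + 1), q ≤ (x : ℕ) → c < ψ x := fun x hx =>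
    (lt _ _).2 ⟨q, hx, fun p a => q3 p (by omega)⟩
  have tq : (t : ℕ) < q := not_le.1 fun h => lt_irrefl _ (hi t h)
  have e : tail (fun x => f x * ψ x) t = tail (fun x => f x * ψ x) q + c * (tail f t - tail f q) := by
    simp only [tail, ← sum_sub_distrib, mul_sum, ← sum_add_distrib]
    refine sum_congr rfl fun x _ => ?_
    split_ifs with a b b
    · ring
    · rw [le_antisymm (lo x (by omega)) (mono a)]; ring
    · omega
    · ring
  have IH : R q ≤ tail (fun x => f x * ψ x) q ∧ tail (fun x => f x * ψ x) q ≤ R q := by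
    rcases q1.eq_or_lt with h | h
    · rw [h, hR, tail_top]; simp
    · have := ih ⟨q, h⟩ tq
      exact ⟨this.1, this.2 fun x hx => (lo x hx).trans_lt (hi _ le_rfl)⟩
  refine ⟨?_, fun h => ?_⟩
  · have := q2 t t.2.le
    simp only [g] at this; linarith [IH.1]
  · obtain ⟨p, h1, h2⟩ := (le c t).1 le_rfl
    have h3 := h2 q tq q1
    rcases h1.eq_or_lt with rfl | h4
    · simp only [g] at h3; linarith [IH.2]
    · have := (le c ⟨p, by have := t.2; omega⟩).2 ⟨p, le_rfl, fun r _ hr => (q2 r hr).trans h3⟩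
      exact absurd (h _ h4) (not_lt.2 this)

theorem layer {ι κ : Type} [Fintype ι] [Fintype κ] (a α : ι → ℝ) (b β : κ → ℝ) (hα : ∀ i, 0 ≤ α i) (hβ : ∀ j, 0 ≤ β j)
    (h : ∀ c, 0 ≤ c → ∑ i, a i * (if c < α i then 1 else 0) ≤ ∑ j, b j * (if c < β j then 1 else 0)) :
    ∑ i, a i * α i ≤ ∑ j, b j * β j := by
  open MeasureTheory in
  have k : ∀ t : ℝ, 0 ≤ t → Integrable (fun c => if c < t then (1 : ℝ) else 0) (volume.restrict (Set.Ici 0)) ∧
      ∫ c in Set.Ici (0 : ℝ), (if c < t then (1 : ℝ) else 0) = t := fun t ht => by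
    have e : (fun c => if c < t then (1 : ℝ) else 0) = (Set.Iio t).indicator fun _ => 1 := by
      funext c; simp [Set.indicator_apply]
    rw [e, integrable_indicator_iff measurableSet_Iio, integral_indicator measurableSet_Iio]
    simp [IntegrableOn, Measure.restrict_restrict measurableSet_Iio, Set.inter_comm (Set.Iio t), Set.Ici_inter_Iio, ht]
  open MeasureTheory in
  calc _ = ∫ c in Set.Ici (0 : ℝ), ∑ i, a i * (if c < α i then 1 else 0) := by
        rw [integral_finsetSum _ fun i _ => (k _ (hα i)).1.const_mul _]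
        exact sum_congr rfl fun i _ => by rw [integral_const_mul, (k _ (hα i)).2]
    _ ≤ ∫ c in Set.Ici (0 : ℝ), ∑ j, b j * (if c < β j then 1 else 0) :=
        setIntegral_mono_on (integrable_finsetSum _ fun i _ => (k _ (hα i)).1.const_mul _)
          (integrable_finsetSum _ fun i _ => (k _ (hβ i)).1.const_mul _) measurableSet_Ici h
    _ = _ := by
        rw [integral_finsetSum _ fun i _ => (k _ (hβ i)).1.const_mul _]
        exact sum_congr rfl fun i _ => by rw [integral_const_mul, (k _ (hβ i)).2]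

end Pool.Agent.H.MP_e3b71d_lc
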