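import Pool.Agent.H.MP_e3b71d_lc.Defs
import Pool.Agent.H.MP_e3b71d_lc.Iron

namespace Pool.Agent.H.MP_e3b71d_lc
open Finset Function Classical

variable {n m : ℕ}

abbrev Pf (n m : ℕ) := Fin n → Fin (m + 1)

def Ex (F : Fin n → Fin (m + 1) → ℝ) (G : Pf n m → ℝ) : ℝ := ∑ v : Pf n m, (∏ i, F i (v i)) * G v

theorem Ex.mono {F : Fin n → Fin (m + 1) → ℝ} (hF : ∀ i x, 0 < F i x) {G H : Pf n m → ℝ} (h : ∀ v, G v ≤ H v) :
    Ex F G ≤ Ex F H :=
  sum_le_sum fun v _ => mul_le_mul_of_nonneg_left (h v) (prod_nonneg fun i _ => (hF i _).le)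

theorem Ex.sum (F : Fin n → Fin (m + 1) → ℝ) (G : Fin n → Pf n m → ℝ) :
    Ex F (fun v => ∑ k, G k v) = ∑ k, Ex F (G k) := by
  simp only [Ex, mul_sum]; exact sum_comm

theorem resample {F : Fin n → Fin (m + 1) → ℝ} (i : Fin n) (h : ∑ x, F i x = 1) (G : Pf n m → ℝ) :
    Ex F G = Ex F fun v => ∑ x, F i x * G (update v i x) := by
  let e : Pf n m × Fin (m + 1) → Pf n m × Fin (m + 1) := fun a => (update a.1 i a.2, a.1 i)
  have he : Involutive e := fun a => by simp [e]
  have p : ∀ (v : Pf n m) x, (∏ j, F j (update v i x j)) * F i (v i) = (∏ j, F j (v j)) * F i x := fun v x => by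
    rw [← mul_prod_erase _ _ (mem_univ i), ← mul_prod_erase _ (fun j => F j (v j)) (mem_univ i), update_self,
      prod_congr rfl fun j hj => by rw [update_of_ne (ne_of_mem_erase hj)]]
    ring
  calc _ = ∑ a : Pf n m × Fin (m + 1), (∏ j, F j (a.1 j)) * F i a.2 * G a.1 := by
        rw [Fintype.sum_prod_type]
        refine sum_congr rfl fun v _ => ?_
        simp only [← sum_mul, ← mul_sum, h, mul_one]
    _ = ∑ a : Pf n m × Fin (m + 1), (∏ j, F j (a.1 j)) * F i a.2 * G (update a.1 i a.2) := by
        rw [← he.bijective.sum_comp]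
        exact sum_congr rfl fun a _ => by simp only [e, p]
    _ = _ := by
        rw [Fintype.sum_prod_type]
        exact sum_congr rfl fun v _ => by simp only [mul_sum, mul_assoc]

noncomputable def thr (A : Pf n m → Option (Fin n)) (k : Fin n) (v : Pf n m) : ℕ :=
  Nat.find (p := fun p => p = m + 1 ∨ ∃ x : Fin (m + 1), (x : ℕ) = p ∧ A (update v k x) = some k) ⟨_, Or.inl rfl⟩

theorem thr_update (A : Pf n m → Option (Fin n)) (k v x) : thr A k (update v k x) = thr A k v := by
  simp only [thr, update_idem]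

theorem thr_le {A : Pf n m → Option (Fin n)} {k v x} (h : A (update v k x) = some k) : thr A k v ≤ x :=
  Nat.find_min' _ (Or.inr ⟨x, rfl, h⟩)

theorem thr_spec (A : Pf n m → Option (Fin n)) (k v) :
    thr A k v = m + 1 ∨ ∃ x : Fin (m + 1), (x : ℕ) = thr A k v ∧ A (update v k x) = some k :=
  Nat.find_spec (p := fun p => p = m + 1 ∨ ∃ x : Fin (m + 1), (x : ℕ) = p ∧ A (update v k x) = some k) _

theorem val_mono {x y : Fin (m + 1)} (h : x ≤ y) : val x ≤ val y :=
  div_le_div_of_nonneg_right (Nat.cast_le.2 h) (Nat.cast_nonneg _)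

theorem Mech.lose (M : Mech n m) {b i} (h : M.f b ≠ some i) : M.p b i = 0 :=
  le_antisymm (by simpa [h] using M.ir b i) (M.npt b i)

theorem profit_nonneg (M : Mech n m) (v i) : 0 ≤ profit M v i (v i) := sub_nonneg.2 (M.ir v i)

theorem moral_le {M : Mech n m} {α} (h1 : α ≤ 1) (h : Moral α M) {v l x} (hx : M.f (update v l x) = some l) :
    val (v l) - val x ≤ ∑ j, profit M v j (v j) := by
  have a : val (v l) - val x ≤ profit M (update v l x) l (v l) := by
    have := M.ir (update v l x) l
    simp only [profit, hx, if_true, update_self] at this ⊢; linarith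
  have b : 0 ≤ ∑ j ∈ univ.erase l, profit M v j (v j) := sum_nonneg fun j _ => profit_nonneg M v j
  rw [← add_sum_erase _ _ (mem_univ l)]
  by_cases g : 0 < profit M (update v l x) l (v l) - profit M v l (v l)
  · have := h v l x g
    rw [sum_congr rfl (g := fun j => profit M v j (v j)) fun j hj => by
      have : M.f (update v l x) ≠ some j := by rw [hx]; simpa using (ne_of_mem_erase hj).symm
      simp [profit, this, M.lose this]] at this
    nlinarith
  · linarith [not_lt.1 g]

noncomputable def star (A : Pf n m → Option (Fin n)) (v : Pf n m) : Option (Fin n) :=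
  if h : ∃ l, thr A l v ≤ v l ∧ ∀ k, thr A k v ≤ v k → v k ≤ v l then some h.choose else none

theorem star_spec {A : Pf n m → Option (Fin n)} {v l} (h : star A v = some l) :
    thr A l v ≤ v l ∧ ∀ k, thr A k v ≤ v k → v k ≤ v l := by
  unfold star at h
  split_ifs at h with e
  obtain rfl := Option.some.inj h
  exact e.choose_spec

theorem pay_le {M : Mech n m} {α} (h1 : α ≤ 1) (h : Moral α M) (v) :
    ∑ i, M.p v i ≤ ∑ k, if star M.f v = some k then (thr M.f k v : ℝ) / m else 0 := by
  rcases hw : M.f v with _ | w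
  · rw [sum_eq_zero fun i _ => M.lose (by simp [hw])]
    exact sum_nonneg fun k _ => by split_ifs <;> positivity
  have ew : thr M.f w v ≤ v w := thr_le (by simpa using hw)
  obtain ⟨l, hl⟩ : ∃ l, star M.f v = some l := by
    obtain ⟨l, a, b⟩ := exists_max_image (univ.filter fun k => thr M.f k v ≤ v k) v ⟨w, by simpa using ew⟩
    exact ⟨_, dif_pos ⟨l, by simpa using a, by simpa using b⟩⟩
  have sp := star_spec hl
  obtain ⟨x, x1, x2⟩ := (thr_spec M.f l v).resolve_left (by have := (v l).2; omega)
  have a := moral_le h1 h x2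
  have b := val_mono (sp.2 w ew)
  simp only [profit, sum_sub_distrib, hw, Option.some.injEq, sum_ite_eq, mem_univ, if_true] at a
  simp only [hl, Option.some.injEq, sum_ite_eq, mem_univ, if_true, ← x1]
  unfold val at *
  linarith

theorem border {F : Fin n → Fin (m + 1) → ℝ} (hF : ∀ i x, 0 < F i x) (h1 : ∀ i, ∑ x, F i x = 1)
    (A : Pf n m → Option (Fin n)) (S : Fin n → Fin (m + 1) → Prop) (hS : ∀ k x y, x ≤ y → S k x → S k y)
    (y : Fin n → Pf n m → ℝ) (y1 : ∀ k v, y k v ≤ ∑ x, F k x * if star A (update v k x) = some k then 1 else 0)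
    (y2 : ∀ k v, y k v ≤ ∑ x, F k x * if S k x then 1 else 0) :
    ∑ k, Ex F (y k) ≤ Ex F fun v => if ∃ k, S k (v k) then 1 else 0 := by
  let T : Fin n → Pf n m → Prop := fun k v =>
    (∀ j, j ≠ k → S j (v j) → ¬ S k (v j)) ∧ ∀ x, S k x → thr A k v ≤ x
  let C : Fin n → Pf n m → Prop := fun k v => if T k v then S k (v k) else star A v = some k
  have hT : ∀ k v x, T k (update v k x) ↔ T k v := fun k v x => by
    simp only [T, thr_update]
    exact and_congr_left' (forall₂_congr fun j hj => by rw [update_of_ne hj])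
  have c1 : ∀ k v, C k v → ∃ j, S j (v j) := fun k v h => by
    simp only [C] at h
    split_ifs at h with t
    · exact ⟨k, h⟩
    · by_contra hc
      push Not at hc
      exact t ⟨fun j _ a => absurd a (hc j), fun x a => not_lt.1 fun b =>
        hc k (hS k x _ (b.le.trans (star_spec h).1) a)⟩
  have c2 : ∀ k l v, k ≠ l → T k v → S k (v k) → ¬ T l v → star A v ≠ some l := fun k l v ne t s t' h => by
    have a := (star_spec h).2 k (t.2 _ s)
    have b : ¬ S l (v l) := fun b => t.1 l ne.symm b (hS _ _ _ a s)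
    refine t' ⟨fun j hj c d => ?_, fun x c => not_lt.1 fun d => b (hS l x _ (d.le.trans (star_spec h).1) c)⟩
    have e : v l < v j := not_le.1 fun e => b (hS _ _ _ e d)
    exact t.1 j (by rintro rfl; exact absurd a (not_le.2 e)) c (hS _ _ _ (a.trans e.le) s)
  have c3 : ∀ k l v, C k v → C l v → k = l := fun k l v a b => by
    by_contra ne
    simp only [C] at a b
    split_ifs at a b with t t' t'
    · rcases le_total (v k) (v l) with e | e
      exacts [t.1 l (Ne.symm ne) b (hS _ _ _ e a), t'.1 k ne a (hS _ _ _ e b)]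
    · exact c2 k l v ne t a t' b
    · exact c2 l k v (Ne.symm ne) t' b t a
    · exact ne (Option.some.inj (a.symm.trans b))
  calc _ ≤ ∑ k, Ex F fun v => if C k v then 1 else 0 := sum_le_sum fun k _ => by
        rw [resample k (h1 k) fun v => if C k v then 1 else 0]
        refine Ex.mono hF fun v => ?_
        by_cases t : T k v
        · simpa [C, hT, t] using y2 k v
        · simpa [C, hT, t] using y1 k v
    _ ≤ _ := by
        rw [← Ex.sum]
        refine Ex.mono hF fun v => ?_
        by_cases h : ∃ k, C k v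
        · obtain ⟨k, hk⟩ := h
          rw [if_pos (c1 k v hk), sum_eq_single k (fun l _ hl => if_neg fun a => hl (c3 _ _ _ a hk)) (by simp),
            if_pos hk]
        · rw [sum_eq_zero fun l _ => if_neg fun a => h ⟨l, a⟩]; split_ifs <;> norm_num

end Pool.Agent.H.MP_e3b71d_lc
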