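import Mathlib

namespace Pool.Agent.H.MP_e3b71d_lc
open Finset Function

variable {n m : ℕ}

/-- the grid point `x / m` -/
noncomputable def val (x : Fin (m + 1)) : ℝ := ((x : ℕ) : ℝ) / m

/-- deterministic direct mechanisms with individual rationality and no positive transfers -/
structure Mech (n m : ℕ) where
  f : (Fin n → Fin (m + 1)) → Option (Fin n)
  p : (Fin n → Fin (m + 1)) → Fin n → ℝ
  ir : ∀ b i, p b i ≤ if f b = some i then val (b i) else 0
  npt : ∀ b i, 0 ≤ p b i

/-- profit of player `i` with true value `x` at the bid profile `b` -/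
noncomputable def profit (M : Mech n m) (b : Fin n → Fin (m + 1)) (i : Fin n) (x : Fin (m + 1)) : ℝ :=
  (if M.f b = some i then val x else 0) - M.p b i

def Moral (α : ℝ) (M : Mech n m) : Prop :=
  ∀ v i x, 0 < profit M (update v i x) i (v i) - profit M v i (v i) →
    profit M (update v i x) i (v i) - profit M v i (v i) ≤
      α * ∑ j ∈ univ.erase i, (profit M v j (v j) - profit M (update v i x) j (v j))

def Truthful (M : Mech n m) : Prop := ∀ v i x, profit M (update v i x) i (v i) ≤ profit M v i (v i)

/-- expected revenue under independent values with point masses `F i x` -/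
noncomputable def Rev (F : Fin n → Fin (m + 1) → ℝ) (M : Mech n m) : ℝ :=
  ∑ v : Fin n → Fin (m + 1), (∏ i, F i (v i)) * ∑ i, M.p v i

end Pool.Agent.H.MP_e3b71d_lc
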